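import Mathlib
import Pool.Agent.Q248.ZU.Final

/-!
# Only finitely many moduli have a maximum zero-sum-free set which avoids units
-/

set_option autoImplicit false

open Finset

namespace Pool.Agent.Results.MP_d75b76_nt.OnlyFinitelyMany

/-- A set `S` of residue classes modulo `m` is zero-sum-free if no nonempty subset of `S` has
sum zero. -/
def ZeroSumFree (m : ℕ) (S : Finset (ZMod m)) : Prop :=
  ∀ T ⊆ S, T.Nonempty → ∑ t ∈ T, t ≠ 0

/-- `S` is a zero-sum-free set modulo `m` of the largest possible cardinality. -/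
def IsMaximum (m : ℕ) (S : Finset (ZMod m)) : Prop :=
  ZeroSumFree m S ∧ ∀ S' : Finset (ZMod m), ZeroSumFree m S' → S'.card ≤ S.card

/-- No element of `S` is coprime to `m`. -/
def AvoidsUnits (m : ℕ) (S : Finset (ZMod m)) : Prop :=
  ∀ s ∈ S, 1 < Nat.gcd s.val m

/-- (1) There are only finitely many `m ≥ 2` for which some maximum zero-sum-free set modulo `m`
avoids units. (2) No prime power is one of them. -/
theorem result :
    {m : ℕ | 2 ≤ m ∧ ∃ S : Finset (ZMod m), IsMaximum m S ∧ AvoidsUnits m S}.Finite ∧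
    ∀ p k : ℕ, p.Prime → 1 ≤ k →
      ¬ ∃ S : Finset (ZMod (p ^ k)), IsMaximum (p ^ k) S ∧ AvoidsUnits (p ^ k) S := by
  constructor
  · obtain ⟨M, hM⟩ := Pool.Agent.Q248.ZU.large_unit
    apply (Set.finite_lt_nat M).subset
    rintro m ⟨hm2, S, ⟨hZ, hmax⟩, hU⟩
    by_contra hc
    have hc' : M ≤ m := not_lt.1 hc
    have : NeZero m := ⟨by omega⟩
    obtain ⟨a, ha, hu⟩ := hM m hc' S hZ hmax
    have h1 := hU a ha
    rw [← ZMod.natCast_zmod_val a, ZMod.isUnit_iff_coprime] at hu
    unfold Nat.Coprime at hu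
    omega
  · rintro p k hp hk ⟨S, ⟨hZ, hmax⟩, hU⟩
    have hp0 : p ^ k ≠ 0 := pow_ne_zero _ hp.ne_zero
    have : NeZero (p ^ k) := ⟨hp0⟩
    have hdvd : p ∣ p ^ k := dvd_pow_self p (by omega)
    obtain ⟨f, hf⟩ : ∃ f : ZMod (p ^ k) →+ ZMod p, f = (ZMod.castHom hdvd (ZMod p)).toAddMonoidHom :=
      ⟨_, rfl⟩
    have hp1 : Fact p.Prime := ⟨hp⟩
    have h1 : (1 : ZMod (p ^ k)) ∉ AddSubgroup.closure (S : Set (ZMod (p ^ k))) := by
      intro hc
      have h2 : AddSubgroup.closure (S : Set (ZMod (p ^ k))) ≤ f.ker := by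
        rw [AddSubgroup.closure_le]
        intro s hs
        rw [SetLike.mem_coe, AddMonoidHom.mem_ker]
        have h3 := hU s hs
        have h4 : p ∣ s.val := by
          by_contra h5
          have h6 : Nat.Coprime s.val (p ^ k) :=
            ((Nat.Prime.coprime_iff_not_dvd hp).2 h5).symm.pow_right k
          unfold Nat.Coprime at h6
          omega
        have h7 : f s = (s.val : ZMod p) := by
          rw [hf]
          show ZMod.castHom hdvd (ZMod p) s = _
          rw [ZMod.castHom_apply, ZMod.cast_eq_val]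
        rw [h7]
        exact (ZMod.natCast_eq_zero_iff _ _).2 h4
      have h3 := h2 hc
      rw [AddMonoidHom.mem_ker, hf] at h3
      have h4 : ZMod.castHom hdvd (ZMod p) 1 = 0 := h3
      rw [map_one] at h4
      exact one_ne_zero h4
    obtain ⟨h2, h3⟩ := Pool.Agent.Q248.ZU.insert_one_ZSF S hZ h1
    have h4 := hmax _ h3
    rw [Finset.card_insert_of_notMem h2] at h4
    omega

end Pool.Agent.Results.MP_d75b76_nt.OnlyFinitelyMany
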